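import Mathlib

set_option autoImplicit false

open Filter Topology

namespace Pool.Agent.Results.MP_ee84c2_an.Difference

section Defs

variable (K : Type*) [RCLike K] {X : Type*} [NormedAddCommGroup X] [NormedSpace K X]

/-- Suppression unconditional for constant coefficients. -/
def SUCC (x : ℕ → X) : Prop :=
  ∃ C : ℝ, 1 ≤ C ∧ ∀ (A B : Finset ℕ) (ε : ℕ → K), B ⊆ A → (∀ n ∈ A, ‖ε n‖ = 1) →
    ‖∑ n ∈ B, ε n • x n‖ ≤ C * ‖∑ n ∈ A, ε n • x n‖

/-- Lower unconditional for constant coefficients. -/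
def LUCC (x : ℕ → X) : Prop :=
  ∃ C : ℝ, 1 ≤ C ∧ ∀ (A : Finset ℕ) (ε : ℕ → K) (a : ℕ → ℝ), (∀ n ∈ A, ‖ε n‖ = 1) →
    (∀ n ∈ A, 1 ≤ a n) → ‖∑ n ∈ A, ε n • x n‖ ≤ C * ‖∑ n ∈ A, (ε n * (a n : K)) • x n‖

end Defs

variable {K : Type*} [RCLike K]

/-- The difference basis `e_0, e_1 - e_0, e_2 - e_1, …` of `ℓ¹`. -/
noncomputable def d (K : Type*) [RCLike K] (n : ℕ) : lp (fun _ : ℕ => K) 1 :=
  lp.single 1 n 1 - if n = 0 then 0 else lp.single 1 (n - 1) 1

theorem d_apply (n k : ℕ) : d K n k = (if n = k then 1 else 0) - if n = k + 1 then 1 else 0 := by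
  simp only [d, lp.coeFn_sub, Pi.sub_apply, lp.single_apply, Pi.single_apply, eq_comm (a := k)]
  rcases n with _ | n
  · simp
  · simp [lp.single_apply, Pi.single_apply, eq_comm (a := k)]

theorem sum_apply (A : Finset ℕ) (c : ℕ → K) (k : ℕ) : (∑ n ∈ A, c n • d K n) k =
    (if k ∈ A then c k else 0) - if k + 1 ∈ A then c (k + 1) else 0 := by
  rw [lp.coeFn_sum, Finset.sum_apply]
  simp [d_apply, mul_sub, Finset.sum_sub_distrib]

theorem hs (y : lp (fun _ : ℕ => K) 1) : HasSum (fun k => ‖y k‖) ‖y‖ := by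
  simpa using lp.hasSum_norm (p := 1) (by simp) y

/-- Tail sum functionals. -/
noncomputable def f (K : Type*) [RCLike K] (n : ℕ) : StrongDual K (lp (fun _ : ℕ => K) 1) :=
  LinearMap.mkContinuous
    { toFun := fun y => ∑' k, y (k + n)
      map_add' := fun y z => by
        simp only [lp.coeFn_add, Pi.add_apply]
        exact ((summable_nat_add_iff n).2 (hs y).summable.of_norm).tsum_add
          ((summable_nat_add_iff n).2 (hs z).summable.of_norm)
      map_smul' := fun c y => by simp [tsum_mul_left] } 1 fun y => by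
    have h := (summable_nat_add_iff (f := fun k => ‖y k‖) n).2 (hs y).summable
    rw [one_mul, ← (hs y).tsum_eq]
    exact (norm_tsum_le_tsum_norm h).trans (tsum_comp_le_tsum_of_inj (hs y).summable
      (fun _ => norm_nonneg _) (add_left_injective n))

theorem sg {e e' : K} {a b : ℝ} (h : ‖e‖ = 1) (h' : ‖e'‖ = 1) (ha : 1 ≤ a) (hb : 1 ≤ b) :
    ‖e - e'‖ ≤ 2 * ‖e * a - e' * b‖ := by
  have h1 := abs_norm_sub_norm_le (e * a) (e' * b)
  have h2 := norm_add_le (e * a - e' * b) (e' * ((b - a : ℝ) : K))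
  have h3 : e * a - e' * b + e' * ((b - a : ℝ) : K) = (e - e') * a := by push_cast; ring
  rw [h3] at h2
  simp only [norm_mul, h, h', RCLike.norm_ofReal, one_mul, abs_of_pos (one_pos.trans_le ha),
    abs_of_pos (one_pos.trans_le hb), abs_sub_comm b a] at h1 h2
  nlinarith [norm_nonneg (e - e')]

theorem result (K : Type) [RCLike K] : ∃ (X : Type) (_ : NormedAddCommGroup X)
    (_ : NormedSpace K X) (_ : CompleteSpace X) (x : ℕ → X) (x' : ℕ → StrongDual K X),
    (Submodule.span K (Set.range x)).topologicalClosure = ⊤ ∧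
    (∀ k n, x' k (x n) = if k = n then 1 else 0) ∧
    (∀ n, 1 ≤ ‖x n‖ ∧ ‖x n‖ ≤ 2 ∧ ‖x' n‖ ≤ 1) ∧ LUCC K x ∧ ¬SUCC K x := by
  classical
  have hb : ∀ k n, f K k (d K n) = if k = n then 1 else 0 := fun k n => by
    have h : ∀ (g : ℕ → ℕ) (hg : Function.Injective g), HasSum (fun j => if n = g j then (1 : K)
        else 0) (if ∃ j, n = g j then 1 else 0) := fun g hg => by
      split_ifs with h
      · obtain ⟨j, rfl⟩ := h
        simpa [hg.eq_iff, eq_comm (a := j)] using hasSum_ite_eq j (1 : K)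
      · simpa [not_exists.1 h] using hasSum_zero
    refine (((h (· + k) (add_left_injective k)).sub (h (· + k + 1) fun a b e => by
      simpa using e)).tsum_eq.symm.trans (tsum_congr fun j => (d_apply n (j + k)).symm)).symm.trans ?_
    have h1 : (∃ j, n = j + k) ↔ k ≤ n := ⟨fun ⟨j, e⟩ => by omega, fun e => ⟨n - k, by omega⟩⟩
    have h2 : (∃ j, n = j + k + 1) ↔ k < n := ⟨fun ⟨j, e⟩ => by omega, fun e => ⟨n - k - 1, by omega⟩⟩
    simp only [h1, h2]
    split_ifs <;> first | omega | simp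
  have hf : ∀ n, ‖f K n‖ ≤ 1 := fun n => LinearMap.mkContinuous_norm_le _ zero_le_one _
  have hr : ∀ n, ∑ i ∈ Finset.range (n + 1), (1 : K) • d K i = lp.single 1 n 1 := fun n => by
    ext k
    rw [sum_apply, lp.single_apply, Pi.single_apply]
    simp only [Finset.mem_range]
    split_ifs <;> first | omega | simp
  refine ⟨lp (fun _ : ℕ => K) 1, inferInstance, inferInstance, inferInstance, d K, f K, ?_, hb,
    fun n => ⟨?_, ?_, hf n⟩, ⟨2, one_le_two, fun A ε a h1 h2 => ?_⟩, ?_⟩
  · refine eq_top_iff.2 fun y _ => (Submodule.isClosed_topologicalClosure _).mem_of_tendsto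
      (lp.hasSum_single (by simp) y) (Eventually.of_forall fun s =>
        Submodule.le_topologicalClosure _ (Submodule.sum_mem _ fun i _ => ?_))
    have : lp.single 1 i (y i) = y i • (lp.single 1 i 1 : lp (fun _ : ℕ => K) 1) := by
      rw [← lp.single_smul]; simp
    rw [this, ← hr]
    exact Submodule.smul_mem _ _ (Submodule.sum_mem _ fun j _ =>
      Submodule.smul_mem _ _ (Submodule.subset_span ⟨j, rfl⟩))
  · have := (f K n).le_of_opNorm_le (hf n) (d K n)
    simpa [hb] using this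
  · refine (norm_sub_le _ _).trans ?_
    split_ifs <;> simp [lp.norm_single] <;> norm_num
  · refine hasSum_le (fun k => ?_) (hs _) ((hs _).mul_left 2)
    rw [sum_apply, sum_apply]
    split_ifs with a1 a2 a2
    · exact sg (h1 _ a1) (h1 _ a2) (h2 _ a1) (h2 _ a2)
    · have := h2 _ a1
      simp only [sub_zero, norm_mul, h1 _ a1, RCLike.norm_ofReal]
      linarith [le_abs_self (a k)]
    · have := h2 _ a2
      simp only [zero_sub, norm_neg, norm_mul, h1 _ a2, RCLike.norm_ofReal]
      linarith [le_abs_self (a (k + 1))]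
    · simp
  · rintro ⟨C, -, hC⟩
    obtain ⟨m, hm⟩ := exists_nat_gt C
    have h1 := hC (Finset.range (2 * m + 1)) ((Finset.range m).image (2 * ·)) (fun _ => 1)
      (fun k hk => by simp at hk ⊢; omega) (by simp)
    rw [hr, lp.norm_single one_pos, norm_one, mul_one] at h1
    have h2 := sum_le_hasSum ((Finset.range m).image (2 * ·)) (fun _ _ => norm_nonneg _)
      (hs (∑ n ∈ (Finset.range m).image (2 * ·), (1 : K) • d K n))
    rw [Finset.sum_congr rfl (g := fun _ => (1 : ℝ)) fun k hk => by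
      rw [sum_apply, if_pos hk, if_neg (by simp at hk ⊢; omega)]; simp] at h2
    simp only [Finset.sum_const, Finset.card_image_of_injective _ (mul_right_injective₀ two_ne_zero),
      Finset.card_range, nsmul_eq_mul, mul_one] at h2
    linarith

end Pool.Agent.Results.MP_ee84c2_an.Difference
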